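import Pool.Agent.MP_0e6a9f_ag.H19.Spec

/-! Row ZIG: the roof between the split and the twisted bimodule. -/

open MulOpposite

noncomputable section
namespace FMD
open _root_.FMD.DGR _root_.FMD.Bimod

namespace H95

section Gen
variable {C C' : DGR}

/-- The direct sum of two bimodules. -/
@[reducible] def prod (H H' : Bimod C C') : Bimod C C' where
  H := H.H × H'.H
  gr n := (H.gr n).prod (H'.gr n)
  d := H.d.prodMap H'.d
  d_mem h := ⟨H.d_mem h.1, H'.d_mem h.2⟩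
  d_d _ := Prod.ext (H.d_d _) (H'.d_d _)
  l_mem hb h := ⟨H.l_mem hb h.1, H'.l_mem hb h.2⟩
  r_mem hb h := ⟨H.r_mem hb h.1, H'.r_mem hb h.2⟩
  d_l b v := Prod.ext (H.d_l b v.1) (H'.d_l b v.2)
  d_r b v := Prod.ext (H.d_r b v.1) (H'.d_r b v.2)

lemma prod_ses (H H' : Bimod C C') :
    Cx.SES H'.cx (prod H H').cx H.cx (AddMonoidHom.inr H.H H'.H) (AddMonoidHom.fst H.H H'.H) :=
  ⟨⟨fun h => ⟨zero_mem _, h⟩, fun _ => Prod.ext (map_zero H.d) rfl⟩, ⟨fun h => h.1, fun _ => rfl⟩,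
    fun _ _ _ h => congrArg Prod.snd h, fun _ _ _ => rfl,
    fun _ v hv h => ⟨v.2, hv.2, Prod.ext (Eq.symm h) rfl⟩,
    fun _ w hw => ⟨(w, 0), ⟨hw, zero_mem _⟩, rfl⟩⟩

lemma fst_isHom (H H' : Bimod C C') : IsHom (prod H H') H (AddMonoidHom.fst H.H H'.H) :=
  ⟨fun h => h.1, fun _ => rfl, fun _ _ => rfl, fun _ _ => rfl⟩

lemma inl_isLin (H H' : Bimod C C') : IsLin H (prod H H') (AddMonoidHom.inl H.H H'.H) :=
  ⟨fun _ _ => Prod.ext rfl (smul_zero _).symm, fun _ _ => Prod.ext rfl (smul_zero _).symm⟩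

lemma der_comp {N N' : Bimod C C} {k k' : ℤ} {s : C.B →+ N.H} {f : N.H →+ N'.H}
    (hs : IsDer N k s) (hf : IsLin N N' f) (hk : ∀ n v, v ∈ N.gr n → f v ∈ N'.gr (n + k')) :
    IsDer N' (k + k') (f.comp s) :=
  ⟨fun h => N'.mem_cast (hk _ _ (hs.mem h)) (add_assoc _ _ _),
    fun a b => by
      change f (s (a * b)) = op b • f (s a) + a • f (s b)
      rw [hs.mul, map_add, hf.l, hf.r],
    fun a => by
      change f (s (C.e a)) = 0
      rw [hs.e, map_zero]⟩

lemma twGr_cast {H : Bimod C C'} {x : Tw C} {y : Tw C'} {m n : ℤ} {v : Matrix y.I x.I H.H}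
    (hv : v ∈ H.twGr x y m) (h : m = n) : v ∈ H.twGr x y n := h ▸ hv

/-- A closed element that commutes with the idempotents, on a twisted complex. -/
def sc (z : C.B) (X : Tw C) : Matrix X.I X.I C.B := Matrix.diagonal fun i => z * C.e (X.ob i)

lemma sc_mem {z : C.B} (h0 : z ∈ C.gr 0) (hc : ∀ o, z * C.e o = C.e o * z) (X : Tw C) :
    sc z X ∈ C.self.twGr X X 0 := fun i j => by
  by_cases h : i = j
  · subst h
    rw [sc, Matrix.diagonal_apply_eq]
    exact C.mem_self_cor.2 ⟨C.mem_cast (C.mul_mem h0 (C.e_mem _)) (by ring),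
      by rw [← mul_assoc, ← hc, mul_assoc, C.e_mul_self], by rw [mul_assoc, C.e_mul_self]⟩
  · rw [sc, Matrix.diagonal_apply_ne _ h]; exact zero_mem _

lemma twD_sc {z : C.B} (hd : C.d z = 0) (hc : ∀ o, z * C.e o = C.e o * z) (X : Tw C) :
    C.self.twD X X (sc z X) = X.δ.map fun b => b * z + z * b := by
  have h : (sc z X).map C.d = 0 := by
    ext i j
    by_cases h : i = j <;> simp [sc, h, C.d_mul, hd, C.d_e]
  rw [self_twD, h, zero_add]
  ext i j
  obtain ⟨-, h1, h2⟩ := C.mem_self_cor.1 (X.δ_mem i j)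
  rw [Matrix.add_apply, sc, Matrix.mul_diagonal, Matrix.diagonal_mul, Matrix.map_apply, hc,
    ← mul_assoc, h2, mul_assoc, h1]

end Gen

variable {K : Type} [Field K] {A : DGR} [Algebra K A.B] [A.KL K] {q : Tw (env K A A)}

variable (q) in
/-- The part `Qb + Qw`. -/
abbrev WW : Bimod A A := prod ((Fr q).shift 3) ((Fr q).shift (-4))

variable {η : q.I → (Fr q).H} {hη : η ∈ bhGr q (Fr q) 4} {hd : bhD q (Fr q) η = 0}

variable (hη hd) in
/-- The inclusion of `Qb + Qw`. -/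
def jW : (WW q).H →+ (Fr (nT q η hη hd)).H := (ib q η hη hd).coprod (iw q η hη hd)

lemma jW_apply (v : (WW q).H) : jW hη hd v = ib q η hη hd v.1 + iw q η hη hd v.2 := rfl

lemma pa_jW (v : (WW q).H) : pa q η hη hd (jW hη hd v) = 0 := by
  rw [jW_apply, map_add, pa_ib, pa_iw, add_zero]
lemma pb_jW (v : (WW q).H) : pb q η hη hd (jW hη hd v) = v.1 := by
  rw [jW_apply, map_add, pb_ib, pb_iw, add_zero]
lemma pw_jW (v : (WW q).H) : pw q η hη hd (jW hη hd v) = v.2 := by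
  rw [jW_apply, map_add, pw_ib, pw_iw, zero_add]

lemma nT_ses : Cx.SES (WW q).cx (Fr (nT q η hη hd)).cx (Fr q).cx (jW hη hd) (pa q η hη hd) where
  mi := ⟨fun {n v} h => nT_gr.2 ⟨by rw [pa_jW]; exact zero_mem _, by rw [pb_jW]; exact h.1,
      by rw [pw_jW]; exact (Fr q).mem_cast h.2 (by ring)⟩,
    fun {n v} _ => nT_ext (by rw [pa_d, pa_jW, pa_jW, map_zero])
      (by rw [pb_d, pa_jW, pb_jW, pb_jW, map_zero, add_zero]; rfl)
      (by rw [pw_d, pw_jW, pw_jW]; rfl)⟩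
  mp := ⟨fun h => (nT_gr.1 h).1, fun _ => (pa_d _).symm⟩
  inj _ v _ h := Prod.ext ((pb_jW v).symm.trans (by rw [h, map_zero]; rfl))
    ((pw_jW v).symm.trans (by rw [h, map_zero]; rfl))
  zero _ v _ := pa_jW v
  ex _ v hv h := ⟨(pb q η hη hd v, pw q η hη hd v),
    ⟨(nT_gr.1 hv).2.1, (Fr q).mem_cast (nT_gr.1 hv).2.2 (by ring)⟩,
    nT_ext ((pa_jW _).trans h.symm) (pb_jW _) (pw_jW _)⟩
  surj _ w hw := ⟨ia q η hη hd w, nT_gr.2 ⟨hw, zero_mem _, zero_mem _⟩, rfl⟩

variable {Q : Bimod A A}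

variable (hη hd) in
/-- `(p, x, y) ↦ π p a + (x + t p) b + y w`. -/
def GG (π t : Q.H →+ (Fr q).H) : (prod Q (WW q)).H →+ (Fr (nT q η hη hd)).H :=
  ((ia q η hη hd).comp π + (ib q η hη hd).comp t).coprod (jW hη hd)

variable {π t : Q.H →+ (Fr q).H}

lemma GG_apply (v : (prod Q (WW q)).H) : GG hη hd π t v =
    ia q η hη hd (π v.1) + ib q η hη hd (t v.1) + jW hη hd v.2 := rfl

lemma pa_GG (v : (prod Q (WW q)).H) : pa q η hη hd (GG hη hd π t v) = π v.1 := by
  rw [GG_apply, map_add, map_add, pa_jW, pa_ia, pa_ib, add_zero, add_zero]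
lemma pb_GG (v : (prod Q (WW q)).H) : pb q η hη hd (GG hη hd π t v) = t v.1 + v.2.1 := by
  rw [GG_apply, map_add, map_add, pb_jW, pb_ia, pb_ib, zero_add]
lemma pw_GG (v : (prod Q (WW q)).H) : pw q η hη hd (GG hη hd π t v) = v.2.2 := by
  rw [GG_apply, map_add, map_add, pw_jW, pw_ia, pw_ib, add_zero, zero_add]

lemma GG_isHom (hπ : IsHom Q (Fr q) π) (ht : IsLin Q (Fr q) t)
    (hm : ∀ n v, v ∈ Q.gr n → t v ∈ (Fr q).gr (n + 3))
    (hdt : ∀ v, (Fr q).d (t v) + lift q (Fr q) η (π v) = t (Q.d v)) :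
    IsHom (prod Q (WW q)) (Fr (nT q η hη hd)) (GG hη hd π t) where
  mem {n v} h := nT_gr.2 ⟨by rw [pa_GG]; exact hπ.mem h.1,
    by rw [pb_GG]; exact add_mem (hm _ _ h.1) h.2.1,
    by rw [pw_GG]; exact (Fr q).mem_cast h.2.2 (by ring)⟩
  comm v := nT_ext (by rw [pa_d, pa_GG, pa_GG, hπ.comm]; rfl)
    (by rw [pb_d, pa_GG, pb_GG, pb_GG, map_add, add_right_comm, hdt]; rfl)
    (by rw [pw_d, pw_GG, pw_GG]; rfl)
  l b v := nT_ext (by rw [pa_isLin.l, pa_GG, pa_GG]; exact hπ.l b _)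
    (by rw [pb_isLin.l, pb_GG, pb_GG, smul_add, ← ht.l]; rfl)
    (by rw [pw_isLin.l, pw_GG, pw_GG]; rfl)
  r b v := nT_ext (by rw [pa_isLin.r, pa_GG, pa_GG]; exact hπ.r b _)
    (by rw [pb_isLin.r, pb_GG, pb_GG, smul_add, ← ht.r]; rfl)
    (by rw [pw_isLin.r, pw_GG, pw_GG]; rfl)

lemma GG_inr (v : (WW q).H) : GG hη hd π t (AddMonoidHom.inr Q.H (WW q).H v) = jW hη hd v := by
  change ia q η hη hd (π 0) + ib q η hη hd (t 0) + jW hη hd v = _
  rw [map_zero, map_zero, map_zero, map_zero, add_zero, zero_add]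

lemma GG_qis (h : IsHom (prod Q (WW q)) (Fr (nT q η hη hd)) (GG hη hd π t))
    (hq : Cx.Qis Q.cx (Fr q).cx π) :
    Cx.Qis (prod Q (WW q)).cx (Fr (nT q η hη hd)).cx (GG hη hd π t) :=
  (prod_ses Q (WW q)).qis₂ nT_ses (Cx.Qis.id _) h.isMap hq
    (fun _ v _ => GG_inr v) fun _ v _ => (pa_GG v).symm

section Scal
variable {D D' : K → K} {κ κ' : q.I → (Fr q).H} (S : KS q D κ)

/-- The roof. -/
abbrev NN : Bimod A A := prod S.Q (WW q)

/-- The scalar on both sides. -/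
def lam (c : K) : (glue (NN S)).B := glue.mk (NN S) (algebraMap K A.B c) (algebraMap K A.B c) 0

/-- The coefficient of `a`. -/
def uu : (glue (NN S)).B →+ (glue.corner (NN S) (Fr q)).H :=
  (S.π.comp (AddMonoidHom.fst S.Q.H (WW q).H)).comp (glue.pN (NN S))

lemma uu_isDer : IsDer (glue.corner (NN S) (Fr q)) (0 + 0) (uu S) :=
  der_comp (glue.pN_isDer (NN S)) (S.π_hom.comp (fst_isHom S.Q (WW q))).isLin.res
    fun _ _ h => (Fr q).mem_cast (S.π_hom.mem h.1) (add_zero _).symm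

lemma uu_d (b : (glue (NN S)).B) :
    (glue.corner (NN S) (Fr q)).d (uu S b) + uu S ((glue (NN S)).d b) = 0 :=
  (congrArg (· + uu S ((glue (NN S)).d b)) (S.π_hom.comm (glue.pN (NN S) b).1)).trans
    ((Fr q).two _)

/-- The correction term. -/
def ss (c : K) : (glue (NN S)).B →+ (glue (NN S)).B :=
  ((glue.iN (NN S)).comp ((AddMonoidHom.inl S.Q.H (WW q).H).comp (S.σ c))).comp (uu S)

lemma ss_isDer (c : K) : IsDer (glue (NN S)).self (0 + 0 + -1) (ss S c) :=
  der_comp (N' := (glue (NN S)).self) (uu_isDer S)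
    ((glue.iN_isHom (NN S)).isLin.comp ((inl_isLin S.Q (WW q)).comp (S.σ_lin c)).res)
    fun _ _ h => glue.iN_mem ⟨S.σ_mem c _ _ h, zero_mem _⟩

lemma lam_comm (c : K) (o : (glue (NN S)).O) :
    lam S c * (glue (NN S)).e o = (glue (NN S)).e o * lam S c :=
  glue.ext (by rw [map_mul, map_mul]; exact Algebra.commutes c _)
    (by rw [map_mul, map_mul]; exact Algebra.commutes c _)
    (by rw [glue.pN_mul, glue.pN_mul, glue.pN_e, lam, glue.pN_mk]; simp only [smul_zero])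

lemma fr_central (c : K) (v : (Fr q).H) :
    algebraMap K A.B c • v + op (algebraMap K A.B c) • v = 0 := by
  have h : op (algebraMap K A.B c) • v = c • v := algebraMap_smul A.Bᵐᵒᵖ c v
  rw [h, algebraMap_smul, (Fr q).two]

lemma lam_ss (c : K) (b : (glue (NN S)).B) : b * lam S c + lam S c * b =
    (glue (NN S)).d (ss S c b) + ss S c ((glue (NN S)).d b) := by
  refine glue.ext ?_ ?_ ?_
  · rw [map_add, map_mul, map_mul, map_add, glue.p₁_d]
    change _ * algebraMap K A.B c + algebraMap K A.B c * _ = A.d 0 + 0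
    rw [Algebra.commutes, A.two, map_zero, add_zero]
  · rw [map_add, map_mul, map_mul, map_add, glue.p₂_d]
    change _ * algebraMap K A.B c + algebraMap K A.B c * _ = A.d 0 + 0
    rw [Algebra.commutes, A.two, map_zero, add_zero]
  · rw [map_add, glue.pN_mul, glue.pN_mul, lam, glue.pN_mk, glue.p₁_mk, glue.p₂_mk, smul_zero,
      smul_zero, zero_add, add_zero, add_comm]
    refine Prod.ext (S.d_σ c (glue.pN (NN S) b).1).symm (Prod.ext ?_ ?_)
    · exact (fr_central c _).trans ((add_zero _).trans (map_zero (Fr q).d)).symm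
    · exact (fr_central c _).trans ((add_zero _).trans (map_zero (Fr q).d)).symm

/-- The scalar on a twisted complex. -/
def ll (c : K) (X : Tw (glue (NN S))) : Matrix X.I X.I (glue (NN S)).B :=
  sc (lam S c) X + X.δ.map (ss S c)

lemma ll_mem (c : K) (X : Tw (glue (NN S))) : ll S c X ∈ (glue (NN S)).self.twGr X X 0 :=
  add_mem (sc_mem (glue.mem_gr.2 ⟨KL.alg_mem c, KL.alg_mem c, zero_mem _⟩) (lam_comm S c) X)
    (twGr_cast ((ss_isDer S c).map_mem X.δ_twGr) (by ring))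

lemma twD_ll (c : K) (X : Tw (glue (NN S))) : (glue (NN S)).self.twD X X (ll S c X) = 0 := by
  rw [ll, map_add, twD_sc (glue.ext (KL.d_alg c) (KL.d_alg c) (map_zero (NN S).d)) (lam_comm S c),
    (ss_isDer S c).twD_δ]
  ext i j
  exact (congrArg (· + _) (lam_ss S c (X.δ i j))).trans ((glue (NN S)).two _)

variable {S} in
lemma ll_map {t : S.Q.H →+ (Fr q).H} (h : IsHom (NN S) (Fr (nT q η hη hd)) (GG hη hd S.π t))
    (c : K) (X : Tw (glue (NN S))) :
    (ll S c X).map (glue.mapF h).f + c • ((glue.mapF h).tw X).idm =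
      X.δ.map fun b => glue.iN _ (ib q η hη hd (t (S.σ c (uu S b)))) := by
  have h1 : (sc (lam S c) X).map (glue.mapF h).f = c • ((glue.mapF h).tw X).idm := by
    ext i j
    rw [Matrix.map_apply, Matrix.smul_apply, sc, Tw.idm]
    by_cases e : i = j
    · subst e
      rw [Matrix.diagonal_apply_eq, Matrix.diagonal_apply_eq, map_mul, (glue.mapF h).map_e,
        Algebra.smul_def, glue.algebraMap_eq]
      exact congrArg (· * _) (glue.ext rfl rfl (map_zero (GG hη hd S.π t)))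
    · rw [Matrix.diagonal_apply_ne _ e, Matrix.diagonal_apply_ne _ e, map_zero, smul_zero]
  rw [ll, Matrix.map_add _ (map_add (glue.mapF h).f), h1, add_right_comm,
    (glue (Fr (nT q η hη hd))).self.mat_two, zero_add]
  ext i j
  refine glue.ext rfl rfl (nT_ext ?_ ?_ ?_)
  · exact (pa_GG _).trans (S.π_σ c _)
  · exact (pb_GG _).trans (add_zero _)
  · exact pw_GG _

/-- The class `κ'` kills the coefficient of `a` of every twisting matrix. -/
lemma ghost (hκ : κ' ∈ bhGr q (Fr q) 2) (hκd : bhD q (Fr q) κ' = 0) (T : KS q D' κ')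
    (X : Tw (glue (NN S))) : ∃ w ∈ (glue.corner (NN S) (Fr q)).twGr X X 2,
      (glue.corner (NN S) (Fr q)).twD X X w = (X.δ.map (uu S)).map (lift q (Fr q) κ') := by
  have hφ : X.δ.map (uu S) ∈ (glue.corner (NN S) (Fr q)).twGr X X 1 :=
    twGr_cast ((uu_isDer S).map_mem X.δ_twGr) (by ring)
  have hφd : (glue.corner (NN S) (Fr q)).twD X X (X.δ.map (uu S)) = 0 := by
    rw [(uu_isDer S).twD_δ]
    ext i j
    exact uu_d S _
  have hq := (T.π_hom.res (φ := glue.p₁ (NN S)) (φ' := glue.p₂ (NN S))).tw_qis T.π_qis X X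
  obtain ⟨φ₁, hm, hd₁, w, hw, e⟩ := hq.surj 1 _ hφ hφd
  have k1 : IsLin (glue.corner (NN S) (Fr q)) (glue.corner (NN S) (Fr q)) (lift q (Fr q) κ') :=
    (lift_isLin κ').res
  have h1 : IsLin (glue.corner (NN S) T.Q) (glue.corner (NN S) (Fr q)) T.h := T.h_lin.res
  refine ⟨φ₁.map T.h + w.map (lift q (Fr q) κ'), add_mem
    (twGr_cast (h1.map_mem T.h_mem hm) (by ring))
    (twGr_cast (k1.map_mem (k := 2) (fun _ _ hv => lift_mem hκ hv) hw) (by ring)), ?_⟩
  have e1 := IsLin.twD (H := glue.corner (NN S) T.Q) (H' := glue.corner (NN S) (Fr q))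
    (g := (lift q (Fr q) κ').comp T.π) h1 (fun v => T.d_h v) X X φ₁
  have e2 := k1.twD (g := 0) (fun v => (d_lift κ' v).trans (by rw [hκd, lift_zero]; rfl)) X X w
  change (glue.corner (NN S) T.Q).twD X X φ₁ = 0 at hd₁
  change (glue.corner (NN S) (Fr q)).twD X X w = _ at e
  rw [hd₁] at e1
  rw [e] at e2
  refine (map_add ((glue.corner (NN S) (Fr q)).twD X X) _ _).trans
    ((congrArg₂ (· + ·) e1 e2).trans ?_)
  have key : ∀ a b : (Fr q).H, T.h 0 + lift q (Fr q) κ' a + (lift q (Fr q) κ' (a + b) + 0) =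
      lift q (Fr q) κ' b := fun a b => by
    rw [map_zero, zero_add, add_zero, map_add, ← add_assoc, (Fr q).two, zero_add]
  ext i j
  exact key (T.π (φ₁ i j)) (uu S (X.δ i j))

end Scal

end H95

open H95 in
theorem zig : ZigStmt := by
  intro K _ A _ _ q D D' κ κ' hκ hκd S T hη hd
  have h₀ : IsHom (NN S) (Fr (n₀ q)) (GG (zero_mem _) (map_zero _) S.π 0) :=
    GG_isHom S.π_hom (IsLin.zero _ _) (fun _ _ _ => zero_mem _) fun v => by simp
  have h₁ : IsHom (NN S) (Fr (nT q _ hη hd)) (GG hη hd S.π ((lift q (Fr q) κ').comp S.h)) :=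
    GG_isHom S.π_hom ((lift_isLin κ').comp S.h_lin)
      (fun n v hv => (Fr q).mem_cast (lift_mem hκ (S.h_mem n v hv)) (by ring)) fun v => by
        change (Fr q).d (lift q (Fr q) κ' (S.h v)) + _ = lift q (Fr q) κ' (S.h (S.Q.d v))
        rw [d_lift, hκd, lift_zero, add_zero, S.d_h, map_add, ← (lift_isLin κ').lift, add_assoc,
          (Fr q).two, add_zero]
  refine ⟨NN S, _, _, h₀, h₁, GG_qis h₀ S.π_qis, GG_qis h₁ S.π_qis, fun c X =>
    ⟨ll S c X, ll_mem S c X, twD_ll S c X, ?_, ?_⟩,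
    (AddMonoidHom.inr _ _).comp (AddMonoidHom.inr _ _), ⟨fun {n v} hv => ⟨zero_mem _, zero_mem _,
      (Fr q).mem_cast hv (by ring)⟩,
      fun v => Prod.ext (map_zero S.Q.d) (Prod.ext (map_zero (Fr q).d) rfl),
      fun b v => Prod.ext (smul_zero b).symm (Prod.ext (smul_zero b).symm rfl),
      fun b v => Prod.ext (smul_zero (op b)).symm (Prod.ext (smul_zero (op b)).symm rfl)⟩,
    fun v => nT_ext ((pa_GG _).trans (map_zero S.π)) ((pb_GG _).trans (add_zero _)) (pw_GG _)⟩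
  · rw [ll_map h₀]
    refine ⟨0, zero_mem _, (map_zero _).trans ?_⟩
    ext i j
    change (0 : (glue (Fr (n₀ q))).B) = glue.iN _ (ib q 0 _ _ 0)
    rw [map_zero, map_zero]
  · rw [ll_map h₁]
    obtain ⟨w, hw, e⟩ := ghost S hκ hκd T X
    let F : (glue.corner (NN S) (Fr q)).H →+ (res (glue.map h₁) (glue.map h₁) (glue _).self).H :=
      (glue.iN _).comp ((ib q _ hη hd).comp (DistribSMul.toAddMonoidHom (Fr q).H (D c)))
    have hF : IsLin (glue.corner (NN S) (Fr q)) (res (glue.map h₁) (glue.map h₁) (glue _).self) F :=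
      ⟨fun b (v : (Fr q).H) => by
        change glue.iN _ (ib q _ hη hd (D c • (glue.p₂ (NN S)).f b • v)) =
          (glue.map h₁).f b * glue.iN _ (ib q _ hη hd (D c • v))
        rw [glue.mul_iN, smul_comm, ib_isLin.l]; rfl,
       fun b (v : (Fr q).H) => by
        change glue.iN _ (ib q _ hη hd (D c • op ((glue.p₁ (NN S)).f b) • v)) =
          glue.iN _ (ib q _ hη hd (D c • v)) * (glue.map h₁).f b
        rw [glue.iN_mul, smul_comm, ib_isLin.r]; rfl⟩
    have hm := hF.map_mem (k := -3) (fun n (v : (Fr q).H) hv => glue.iN_mem (nT_gr.2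
      ⟨zero_mem _, (Fr q).mem_cast (Bimod.smul_mem (D c) hv) (by ring), zero_mem _⟩)) hw
    have e1 := hF.twD (g := 0) (fun (v : (Fr q).H) => by
      change (glue _).d (glue.iN _ (ib q _ hη hd (D c • v))) =
        glue.iN _ (ib q _ hη hd (D c • (Fr q).d v)) + 0
      rw [add_zero, glue.d_iN]
      exact congrArg _ (nT_ext (by rw [pa_d, pa_ib, pa_ib, map_zero])
        (by rw [pb_d, pa_ib, pb_ib, pb_ib, map_zero, add_zero, Bimod.d_smul])
        (by rw [pw_d, pw_ib, pw_ib, map_zero]))) X X w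
    refine ⟨w.map F, (res_twGr (glue.map_e h₁) (glue.map_e h₁) _ X X _ _).1
      (twGr_cast hm (by ring)), ?_⟩
    refine (res_twD (glue.map_e h₁) (glue.map_e h₁) _ X X _).symm.trans (e1.trans ?_)
    rw [e]
    ext i j
    change glue.iN _ (ib q _ hη hd (D c • lift q (Fr q) κ' (uu S (X.δ i j)))) + 0 =
      glue.iN _ (ib q _ hη hd (lift q (Fr q) κ' (S.h (S.σ c (uu S (X.δ i j))))))
    rw [add_zero, S.h_σ, (lift_isLin κ').smul]

end FMD
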